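import Pool.Agent.U798.BV.Spec

/-! Project BV, package SIEV: a sieve for absolutely summable sequences -/

set_option autoImplicit false

open Filter Topology

namespace Pool.Agent.U858.BV

/-- the nonzero multiples of `m` which are not multiples of `m r`, `r < k` prime, `r ≠ p, q` -/
def Ind (p q k m : ℕ) : Set ℤ :=
  {n | n ≠ 0 ∧ (m : ℤ) ∣ n ∧ ∀ r < k, r.Prime → r ≠ p → r ≠ q → ¬ ((m * r : ℕ) : ℤ) ∣ n}

/-- the nonzero multiples of `m` which are not multiples of `m r`, `r` prime, `r ≠ p, q` -/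
def Inf (p q m : ℕ) : Set ℤ :=
  {n | n ≠ 0 ∧ (m : ℤ) ∣ n ∧ ∀ r : ℕ, r.Prime → r ≠ p → r ≠ q → ¬ ((m * r : ℕ) : ℤ) ∣ n}

theorem ind_succ_of_not {p q k m : ℕ} (h : ¬ (k.Prime ∧ k ≠ p ∧ k ≠ q)) :
    Ind p q (k + 1) m = Ind p q k m := by
  ext n
  constructor
  · rintro ⟨h1, h2, h3⟩
    exact ⟨h1, h2, fun r hr => h3 r (by omega)⟩
  · rintro ⟨h1, h2, h3⟩
    refine ⟨h1, h2, fun r hr hrp hr1 hr2 => ?_⟩
    rcases Nat.lt_succ_iff_lt_or_eq.1 hr with h4 | h4
    · exact h3 r h4 hrp hr1 hr2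
    · subst h4
      exact absurd ⟨hrp, hr1, hr2⟩ h

theorem ind_succ {p q k m : ℕ} (hm : 1 ≤ m) (hk : k.Prime) (hkp : k ≠ p) (hkq : k ≠ q)
    (c : ℤ → ℂ) (n : ℤ) : (Ind p q (k + 1) m).indicator c n =
      (Ind p q k m).indicator c n - (Ind p q k (m * k)).indicator c n := by
  classical
  have hm0 : (m : ℤ) ≠ 0 := by exact_mod_cast (by omega : m ≠ 0)
  by_cases h1 : n ∈ Ind p q k m
  · by_cases h2 : ((m * k : ℕ) : ℤ) ∣ n
    · have h3 : n ∉ Ind p q (k + 1) m := fun h => h.2.2 k (Nat.lt_succ_self k) hk hkp hkq h2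
      have h4 : n ∈ Ind p q k (m * k) := by
        refine ⟨h1.1, h2, fun r hr hrp hr1 hr2 h5 => h1.2.2 r hr hrp hr1 hr2 ?_⟩
        refine dvd_trans ?_ h5
        exact_mod_cast (⟨k, by ring⟩ : m * r ∣ m * k * r)
      rw [Set.indicator_of_notMem h3, Set.indicator_of_mem h1, Set.indicator_of_mem h4, sub_self]
    · have h3 : n ∈ Ind p q (k + 1) m := by
        refine ⟨h1.1, h1.2.1, fun r hr hrp hr1 hr2 => ?_⟩
        rcases Nat.lt_succ_iff_lt_or_eq.1 hr with h4 | h4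
        · exact h1.2.2 r h4 hrp hr1 hr2
        · subst h4
          exact h2
      have h4 : n ∉ Ind p q k (m * k) := fun h => h2 h.2.1
      rw [Set.indicator_of_mem h3, Set.indicator_of_mem h1, Set.indicator_of_notMem h4, sub_zero]
  · have h3 : n ∉ Ind p q (k + 1) m :=
      fun h => h1 ⟨h.1, h.2.1, fun r hr => h.2.2 r (by omega)⟩
    have h4 : n ∉ Ind p q k (m * k) := by
      rintro ⟨h5, h6, h7⟩
      apply h1
      refine ⟨h5, dvd_trans (by push_cast; exact Dvd.intro _ rfl) h6,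
        fun r hr hrp hr1 hr2 h8 => h7 r hr hrp hr1 hr2 ?_⟩
      obtain ⟨a, ha⟩ := h6
      obtain ⟨b, hb⟩ := h8
      have h9 : (k : ℤ) * a = r * b := by
        apply mul_left_cancel₀ hm0
        have h10 := ha.symm.trans hb
        push_cast at h10
        linarith
      have h10 : (r : ℤ) ∣ a := by
        have h11 : IsCoprime (r : ℤ) (k : ℤ) := by
          rw [Nat.isCoprime_iff_coprime]
          exact (Nat.coprime_primes hrp hk).2 (by omega)
        exact h11.dvd_of_dvd_mul_left ⟨b, h9⟩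
      obtain ⟨a', ha'⟩ := h10
      refine ⟨a', ?_⟩
      rw [ha, ha']
      push_cast
      ring
    rw [Set.indicator_of_notMem h3, Set.indicator_of_notMem h1, Set.indicator_of_notMem h4,
      sub_zero]

theorem sum_ind {p q : ℕ} (hp : p.Prime) (hq : q.Prime) {c : ℤ → ℂ} (hc : Summable c)
    (h : ∀ d : ℕ, 1 ≤ d → ¬ p ∣ d → ¬ q ∣ d →
      ∑' n : ℤ, (if n ≠ 0 ∧ (d : ℤ) ∣ n then c n else 0) = 0) (k : ℕ) :
    ∀ m : ℕ, 1 ≤ m → ¬ p ∣ m → ¬ q ∣ m → ∑' n : ℤ, (Ind p q k m).indicator c n = 0 := by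
  classical
  induction k with
  | zero =>
    intro m hm h1 h2
    refine (tsum_congr fun n => ?_).trans (h m hm h1 h2)
    by_cases h3 : n ≠ 0 ∧ (m : ℤ) ∣ n
    · rw [if_pos h3, Set.indicator_of_mem]
      exact ⟨h3.1, h3.2, fun r hr => absurd hr (Nat.not_lt_zero r)⟩
    · rw [if_neg h3, Set.indicator_of_notMem]
      exact fun h4 => h3 ⟨h4.1, h4.2.1⟩
  | succ k ih =>
    intro m hm h1 h2
    by_cases hk : k.Prime ∧ k ≠ p ∧ k ≠ q
    · obtain ⟨hk, hkp, hkq⟩ := hk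
      rw [tsum_congr (ind_succ hm hk hkp hkq c), Summable.tsum_sub (hc.indicator _)
        (hc.indicator _), ih m hm h1 h2, ih (m * k) ?_ ?_ ?_, sub_zero]
      · exact Nat.mul_pos hm hk.pos
      · intro h3
        rcases (Nat.Prime.dvd_mul hp).1 h3 with h4 | h4
        · exact h1 h4
        · exact hkp ((Nat.prime_dvd_prime_iff_eq hp hk).1 h4).symm
      · intro h3
        rcases (Nat.Prime.dvd_mul hq).1 h3 with h4 | h4
        · exact h2 h4
        · exact hkq ((Nat.prime_dvd_prime_iff_eq hq hk).1 h4).symm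
    · rw [ind_succ_of_not hk]
      exact ih m hm h1 h2

theorem sum_inf {p q : ℕ} (hp : p.Prime) (hq : q.Prime) {c : ℤ → ℂ} (hc : Summable c)
    (h : ∀ d : ℕ, 1 ≤ d → ¬ p ∣ d → ¬ q ∣ d →
      ∑' n : ℤ, (if n ≠ 0 ∧ (d : ℤ) ∣ n then c n else 0) = 0)
    (m : ℕ) (hm : 1 ≤ m) (h1 : ¬ p ∣ m) (h2 : ¬ q ∣ m) :
    ∑' n : ℤ, (Inf p q m).indicator c n = 0 := by
  classical
  have h3 : Tendsto (fun k : ℕ => ∑' n : ℤ, (Ind p q k m).indicator c n) atTop
      (𝓝 (∑' n : ℤ, (Inf p q m).indicator c n)) := by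
    refine tendsto_tsum_of_dominated_convergence (bound := fun n => ‖c n‖) hc.norm ?_ ?_
    · intro n
      apply tendsto_const_nhds.congr'
      by_cases h4 : n ∈ Inf p q m
      · refine Eventually.of_forall fun k => ?_
        dsimp only
        rw [Set.indicator_of_mem h4, Set.indicator_of_mem]
        exact ⟨h4.1, h4.2.1, fun r _ => h4.2.2 r⟩
      · by_cases h5 : n ≠ 0 ∧ (m : ℤ) ∣ n
        · have h6 : ∃ r : ℕ, r.Prime ∧ r ≠ p ∧ r ≠ q ∧ ((m * r : ℕ) : ℤ) ∣ n := by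
            by_contra h7
            push Not at h7
            exact h4 ⟨h5.1, h5.2, h7⟩
          obtain ⟨r, hr1, hr2, hr3, hr4⟩ := h6
          filter_upwards [eventually_gt_atTop r] with k hk
          rw [Set.indicator_of_notMem h4, Set.indicator_of_notMem]
          exact fun h8 => h8.2.2 r hk hr1 hr2 hr3 hr4
        · refine Eventually.of_forall fun k => ?_
          dsimp only
          rw [Set.indicator_of_notMem h4, Set.indicator_of_notMem]
          exact fun h8 => h5 ⟨h8.1, h8.2.1⟩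
    · refine Eventually.of_forall fun k n => ?_
      exact norm_indicator_le_norm_self _ _
  have h4 : (fun k : ℕ => ∑' n : ℤ, (Ind p q k m).indicator c n) = fun _ => 0 :=
    funext fun k => sum_ind hp hq hc h k m hm h1 h2
  rw [h4] at h3
  exact tendsto_nhds_unique h3 tendsto_const_nhds

/-- the map `(i, j) ↦ m pⁱ qʲ` -/
theorem inj_pow {p q : ℕ} (hp : p.Prime) (hq : q.Prime) (hpq : p ≠ q) {m : ℕ} (hm : 1 ≤ m) :
    Function.Injective (fun ij : ℕ × ℕ => ((m : ℤ) * p ^ ij.1 * q ^ ij.2)) := by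
  rintro ⟨i, j⟩ ⟨i', j'⟩ h
  dsimp only at h
  have h1 : m * (p ^ i * q ^ j) = m * (p ^ i' * q ^ j') := by
    have h2 : ((m * (p ^ i * q ^ j) : ℕ) : ℤ) = ((m * (p ^ i' * q ^ j') : ℕ) : ℤ) := by
      push_cast
      linarith
    exact_mod_cast h2
  have h2 : p ^ i * q ^ j = p ^ i' * q ^ j' := Nat.eq_of_mul_eq_mul_left hm h1
  have hf : ∀ a b : ℕ, (p ^ a * q ^ b).factorization p = a ∧
      (p ^ a * q ^ b).factorization q = b := by
    intro a b
    rw [Nat.factorization_mul (pow_ne_zero _ hp.ne_zero) (pow_ne_zero _ hq.ne_zero),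
      hp.factorization_pow, hq.factorization_pow]
    constructor
    · rw [Finsupp.add_apply, Finsupp.single_eq_same, Finsupp.single_eq_of_ne hpq, add_zero]
    · rw [Finsupp.add_apply, Finsupp.single_eq_same, Finsupp.single_eq_of_ne hpq.symm, zero_add]
  have h3 := hf i j
  have h4 := hf i' j'
  rw [h2] at h3
  rw [Prod.mk.injEq]
  exact ⟨h3.1.symm.trans h4.1, h3.2.symm.trans h4.2⟩

theorem mem_inf {p q : ℕ} (hp : p.Prime) (hq : q.Prime) {m : ℕ} (hm : 1 ≤ m) (i j : ℕ) :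
    ((m : ℤ) * p ^ i * q ^ j) ∈ Inf p q m := by
  have hm0 : (m : ℤ) ≠ 0 := by exact_mod_cast (by omega : m ≠ 0)
  have hp0 : (p : ℤ) ≠ 0 := by exact_mod_cast hp.ne_zero
  have hq0 : (q : ℤ) ≠ 0 := by exact_mod_cast hq.ne_zero
  refine ⟨mul_ne_zero (mul_ne_zero hm0 (pow_ne_zero _ hp0)) (pow_ne_zero _ hq0),
    Dvd.intro (p ^ i * q ^ j) (by ring), fun r hr hrp hrq h => ?_⟩
  have h1 : m * r ∣ m * (p ^ i * q ^ j) := by
    have h2 : ((m * r : ℕ) : ℤ) ∣ ((m * (p ^ i * q ^ j) : ℕ) : ℤ) := by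
      push_cast at h ⊢
      rw [← mul_assoc]
      exact h
    exact_mod_cast h2
  have h2 : r ∣ p ^ i * q ^ j := Nat.dvd_of_mul_dvd_mul_left hm h1
  rcases (Nat.Prime.dvd_mul hr).1 h2 with h3 | h3
  · exact hrp ((Nat.prime_dvd_prime_iff_eq hr hp).1 (hr.dvd_of_dvd_pow h3))
  · exact hrq ((Nat.prime_dvd_prime_iff_eq hr hq).1 (hr.dvd_of_dvd_pow h3))

theorem exists_of_inf {p q : ℕ} (hp : p.Prime) (hq : q.Prime) {m : ℕ} {n : ℤ}
    (hn : n ∈ Inf p q m) (h0 : 0 < n) : ∃ ij : ℕ × ℕ, (m : ℤ) * p ^ ij.1 * q ^ ij.2 = n := by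
  obtain ⟨N, rfl⟩ := Int.eq_ofNat_of_zero_le h0.le
  obtain ⟨h1, h2, h3⟩ := hn
  have h2 : m ∣ N := by exact_mod_cast h2
  obtain ⟨a, rfl⟩ := h2
  have ha : a ≠ 0 := by
    rintro rfl
    rw [mul_zero] at h0
    exact absurd h0 (by norm_num)
  obtain ⟨i, a1, hi1, hi2⟩ := Nat.exists_eq_pow_mul_and_not_dvd ha p hp.ne_one
  have ha1 : a1 ≠ 0 := by
    rintro rfl
    exact hi1 (dvd_zero p)
  obtain ⟨j, a2, hj1, hj2⟩ := Nat.exists_eq_pow_mul_and_not_dvd ha1 q hq.ne_one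
  have ha2 : a2 = 1 := by
    by_contra h4
    obtain ⟨r, hr, hr2⟩ := Nat.exists_prime_and_dvd h4
    have hra1 : r ∣ a1 := by
      rw [hj2]
      exact dvd_mul_of_dvd_right hr2 _
    have hra : r ∣ a := by
      rw [hi2]
      exact dvd_mul_of_dvd_right hra1 _
    refine h3 r hr ?_ ?_ ?_
    · rintro rfl
      exact hi1 hra1
    · rintro rfl
      exact hj1 hr2
    · exact_mod_cast Nat.mul_dvd_mul_left m hra
  refine ⟨(i, j), ?_⟩
  rw [hi2, hj2, ha2]
  push_cast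
  ring

theorem neg_mem_inf {p q m : ℕ} {n : ℤ} : -n ∈ Inf p q m ↔ n ∈ Inf p q m := by
  unfold Inf
  simp only [Set.mem_ofPred_eq, neg_ne_zero, dvd_neg, ne_eq]

theorem t_SIEV : Pool.Agent.U798.BV.S_SIEV := by
  classical
  intro p q hp hq hpq c hc h m hm h1 h2
  have key := sum_inf hp hq hc h m hm h1 h2
  have hinj := inj_pow hp hq hpq hm
  have hinj' : Function.Injective
      (fun ij : ℕ × ℕ => (-((m : ℤ) * p ^ ij.1 * q ^ ij.2))) := fun x y hxy =>
    hinj (neg_injective hxy)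
  -- split into positive and negative
  have hs : ∀ n : ℤ, (Inf p q m).indicator c n =
      (Inf p q m ∩ {n | 0 < n}).indicator c n + (Inf p q m ∩ {n | n < 0}).indicator c n := by
    intro n
    by_cases hn : n ∈ Inf p q m
    · rcases lt_trichotomy n 0 with h3 | h3 | h3
      · have h5 : n ∉ Inf p q m ∩ {n | 0 < n} := fun h4 => absurd h4.2 (not_lt.2 h3.le)
        have h6 : n ∈ Inf p q m ∩ {n | n < 0} := ⟨hn, h3⟩
        rw [Set.indicator_of_mem hn, Set.indicator_of_notMem h5, Set.indicator_of_mem h6, zero_add]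
      · exact absurd h3 hn.1
      · have h5 : n ∉ Inf p q m ∩ {n | n < 0} := fun h4 => absurd h4.2 (not_lt.2 h3.le)
        have h6 : n ∈ Inf p q m ∩ {n | 0 < n} := ⟨hn, h3⟩
        rw [Set.indicator_of_mem hn, Set.indicator_of_mem h6, Set.indicator_of_notMem h5, add_zero]
    · have h5 : n ∉ Inf p q m ∩ {n | n < 0} := fun h4 => hn h4.1
      have h6 : n ∉ Inf p q m ∩ {n | 0 < n} := fun h4 => hn h4.1
      rw [Set.indicator_of_notMem hn, Set.indicator_of_notMem h5,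
        Set.indicator_of_notMem h6, add_zero]
  rw [tsum_congr hs, Summable.tsum_add (hc.indicator _) (hc.indicator _)] at key
  have hpos : ∀ ij : ℕ × ℕ, (0 : ℤ) < (m : ℤ) * p ^ ij.1 * q ^ ij.2 := by
    intro ij
    have hm0 : (0 : ℤ) < m := by exact_mod_cast hm
    have hp0 : (0 : ℤ) < p := by exact_mod_cast hp.pos
    have hq0 : (0 : ℤ) < q := by exact_mod_cast hq.pos
    positivity
  have e1 : ∑' n : ℤ, (Inf p q m ∩ {n | 0 < n}).indicator c n =
      ∑' ij : ℕ × ℕ, c (m * p ^ ij.1 * q ^ ij.2) := by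
    rw [← hinj.tsum_eq]
    · refine tsum_congr fun ij => ?_
      rw [Set.indicator_of_mem]
      exact ⟨mem_inf hp hq hm ij.1 ij.2, hpos ij⟩
    · intro n hn
      have hn2 := Set.mem_of_indicator_ne_zero hn
      exact exists_of_inf hp hq hn2.1 hn2.2
  have e2 : ∑' n : ℤ, (Inf p q m ∩ {n | n < 0}).indicator c n =
      ∑' ij : ℕ × ℕ, c (-(m * p ^ ij.1 * q ^ ij.2)) := by
    rw [← hinj'.tsum_eq]
    · refine tsum_congr fun ij => ?_
      rw [Set.indicator_of_mem]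
      refine ⟨neg_mem_inf.2 (mem_inf hp hq hm ij.1 ij.2), ?_⟩
      have := hpos ij
      simp only [Set.mem_ofPred_eq]
      omega
    · intro n hn
      have hn2 := Set.mem_of_indicator_ne_zero hn
      have hn3 : n < 0 := hn2.2
      obtain ⟨ij, hij⟩ := exists_of_inf hp hq (neg_mem_inf.2 hn2.1) (by omega : 0 < -n)
      refine ⟨ij, ?_⟩
      dsimp only
      rw [hij, neg_neg]
  rw [e1, e2] at key
  rw [Summable.tsum_add]
  · exact key
  · exact hc.comp_injective hinj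
  · exact hc.comp_injective hinj'

end Pool.Agent.U858.BV

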